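import Pool.Agent.TH63.RD.Def
import Pool.Agent.TH63.RD.X429.RDTools
import Pool.Agent.W336.CS.Stmts

/-!
# Amenable subgroups of groups with rapid decay have bounded balls
-/

set_option autoImplicit false

open Pool.Agent.TH63.RD

namespace Pool.Agent.TH65.B.Am

open MonoidAlgebra

/-- the indicator of a finite set -/
noncomputable def ind {G : Type} (F : Finset G) : MonoidAlgebra ℝ G :=
  ofCoeff (Finsupp.indicator F fun _ _ => (1 : ℝ))

theorem ind_coeff {G : Type} [DecidableEq G] (F : Finset G) (x : G) :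
    (ind F).coeff x = if x ∈ F then 1 else 0 := by
  unfold ind
  show (Finsupp.indicator F fun _ _ => (1 : ℝ)) x = _
  rw [Finsupp.indicator_apply]
  by_cases h : x ∈ F
  · simp [h]
  · simp [h]

theorem ind_support {G : Type} (F : Finset G) : (ind F).coeff.support ⊆ F := by
  classical
  intro x hx
  rw [Finsupp.mem_support_iff, ind_coeff] at hx
  by_contra h
  exact hx (if_neg h)

theorem ind_sq {G : Type} [Group G] (F : Finset G) : Pool.Agent.TH63.RD.sq (ind F) = F.card := by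
  classical
  rw [Pool.Agent.TH63.RD.X429.RDTools.sq_eq_of_support _ F (ind_support F)]
  rw [Finset.sum_congr rfl fun x hx => by rw [ind_coeff, if_pos hx]]
  simp

theorem ind_mul {G : Type} [Group G] [DecidableEq G] (F : Finset G) (g : MonoidAlgebra ℝ G)
    (y : G) : (ind F * g).coeff y = ∑ s ∈ F, g.coeff (s⁻¹ * y) := by
  rw [coeff_mul_apply_left, Finsupp.sum]
  rw [Finset.sum_subset (ind_support F)]
  · refine Finset.sum_congr rfl fun s hs => ?_
    rw [ind_coeff, if_pos hs, one_mul]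
  · intro s _ hs
    rw [Finsupp.notMem_support_iff] at hs
    rw [hs, zero_mul]

theorem sum_sq_le {G : Type} [Group G] (h : MonoidAlgebra ℝ G) (E : Finset G) :
    (∑ y ∈ E, h.coeff y) ^ 2 ≤ E.card * Pool.Agent.TH63.RD.sq h := by
  classical
  have h1 : (∑ y ∈ E, h.coeff y) ^ 2 ≤ E.card * ∑ y ∈ E, h.coeff y ^ 2 :=
    sq_sum_le_card_mul_sum_sq
  refine h1.trans (mul_le_mul_of_nonneg_left ?_ (Nat.cast_nonneg _))
  rw [Pool.Agent.TH63.RD.X429.RDTools.sq_eq_of_support h (h.coeff.support ∪ E)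
    Finset.subset_union_left]
  exact Finset.sum_le_sum_of_subset_of_nonneg Finset.subset_union_right
    fun _ _ _ => sq_nonneg _

theorem amen_eps {G : Type} [Group G] (A : Subgroup G) (hA : Pool.Agent.W336.CS.Fol A)
    (ℓ : G → ℕ) (r : ℕ) (K : ℝ) (h : RDB ℓ r K) (F : Finset G) (hne : F.Nonempty)
    (hF : ∀ x ∈ F, x ∈ A ∧ ℓ x ≤ r) (ε : ℝ) (hε : 0 < ε) (hε1 : ε ≤ 1) :
    (F.card : ℝ) * (1 - ε) ^ 2 ≤ K := by
  classical
  let S : Finset A := (F.subtype (fun x => x ∈ A)).image fun a => a⁻¹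
  obtain ⟨E, hE, hEF⟩ := hA S ε hε
  have hE0 : (0 : ℝ) < E.card := by exact_mod_cast Finset.card_pos.2 hE
  have hF0 : (0 : ℝ) < F.card := by exact_mod_cast Finset.card_pos.2 hne
  let E' : Finset G := E.map (Function.Embedding.subtype _)
  have hE'c : (E'.card : ℝ) = E.card := by simp [E']
  have hE'mem : ∀ a : A, (a : G) ∈ E' ↔ a ∈ E := by
    intro a
    simp only [E', Finset.mem_map, Function.Embedding.coe_subtype]
    constructor
    · rintro ⟨b, hb, hab⟩
      rwa [← Subtype.ext hab]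
    · intro ha
      exact ⟨a, ha, rfl⟩
  have key : ∀ s ∈ F, (1 - ε) * E.card ≤ ∑ y ∈ E', (ind E').coeff (s⁻¹ * y) := by
    intro s hs
    let a : A := ⟨s, (hF s hs).1⟩
    have ha : a⁻¹ ∈ S := Finset.mem_image.2 ⟨a, Finset.mem_subtype.2 hs, rfl⟩
    have h1 := hEF _ ha
    have h2 : ∑ y ∈ E', (ind E').coeff (s⁻¹ * y) = ((E.filter fun x => a⁻¹ * x ∈ E).card : ℝ) := by
      simp only [E', Finset.sum_map, Function.Embedding.coe_subtype]
      rw [Finset.card_filter, Nat.cast_sum]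
      refine Finset.sum_congr rfl fun x _ => ?_
      rw [ind_coeff]
      have h3 : s⁻¹ * (x : G) = ((a⁻¹ * x : A) : G) := rfl
      rw [h3]
      by_cases hx : a⁻¹ * x ∈ E
      · rw [if_pos ((hE'mem _).2 hx), if_pos hx, Nat.cast_one]
      · rw [if_neg (fun h4 => hx ((hE'mem _).1 h4)), if_neg hx, Nat.cast_zero]
    have h4 : (Set.ncard {x : A | x ∈ E ∧ a⁻¹ * x ∉ E} : ℝ) =
        ((E.filter fun x => ¬ (a⁻¹ * x ∈ E)).card : ℝ) := by
      have h5 : {x : A | x ∈ E ∧ a⁻¹ * x ∉ E} =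
          ((E.filter fun x => ¬ (a⁻¹ * x ∈ E) : Finset A) : Set A) := by
        ext x
        simp
      rw [h5, Set.ncard_coe_finset]
    have h6 := Finset.card_filter_add_card_filter_not (s := E) (fun x => a⁻¹ * x ∈ E)
    have h7 : ((E.filter fun x => a⁻¹ * x ∈ E).card : ℝ) +
        ((E.filter fun x => ¬ (a⁻¹ * x ∈ E)).card : ℝ) = E.card := by exact_mod_cast h6
    rw [h2]
    rw [h4] at h1
    linarith
  have hsum : (F.card : ℝ) * ((1 - ε) * E.card) ≤ ∑ y ∈ E', (ind F * ind E').coeff y := by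
    have h1 : ∑ y ∈ E', (ind F * ind E').coeff y =
        ∑ s ∈ F, ∑ y ∈ E', (ind E').coeff (s⁻¹ * y) := by
      rw [Finset.sum_comm]
      exact Finset.sum_congr rfl fun y _ => ind_mul _ _ _
    rw [h1, ← nsmul_eq_mul]
    exact Finset.card_nsmul_le_sum _ _ _ key
  have hlow : 0 ≤ (F.card : ℝ) * ((1 - ε) * E.card) :=
    mul_nonneg hF0.le (mul_nonneg (by linarith) hE0.le)
  have h1 : ((F.card : ℝ) * ((1 - ε) * E.card)) ^ 2 ≤ E.card * Pool.Agent.TH63.RD.sq (ind F * ind E') := by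
    refine (pow_le_pow_left₀ hlow hsum 2).trans ?_
    rw [← hE'c]
    exact sum_sq_le _ _
  have h2 : Pool.Agent.TH63.RD.sq (ind F * ind E') ≤ K * F.card * E.card := by
    have h3 := h (ind F) (ind E') fun x hx => (hF x (ind_support F hx)).2
    rwa [ind_sq, ind_sq, hE'c] at h3
  have h3 : ((F.card : ℝ) * ((1 - ε) * E.card)) ^ 2 ≤ E.card * (K * F.card * E.card) :=
    h1.trans (mul_le_mul_of_nonneg_left h2 hE0.le)
  have h4 : ((F.card : ℝ) * E.card ^ 2) * ((F.card : ℝ) * (1 - ε) ^ 2) ≤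
      ((F.card : ℝ) * E.card ^ 2) * K := by nlinarith [h3]
  exact le_of_mul_le_mul_left h4 (mul_pos hF0 (pow_pos hE0 2))

/-- amenable subgroups of groups with rapid decay have bounded balls -/
theorem amen_card {G : Type} [Group G] (A : Subgroup G) (hA : Pool.Agent.W336.CS.Fol A)
    (ℓ : G → ℕ) (r : ℕ) (K : ℝ) (h : RDB ℓ r K) (F : Finset G) (hne : F.Nonempty)
    (hF : ∀ x ∈ F, x ∈ A ∧ ℓ x ≤ r) :
    (F.card : ℝ) ≤ K := by
  have hF0 : (0 : ℝ) < F.card := by exact_mod_cast Finset.card_pos.2 hne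
  refine le_of_forall_pos_le_add fun δ hδ => ?_
  have hd : 0 < δ / (2 * F.card) := by positivity
  have h1 := amen_eps A hA ℓ r K h F hne hF (min (δ / (2 * F.card)) 1)
    (lt_min hd one_pos) (min_le_right _ _)
  have h2 : min (δ / (2 * (F.card : ℝ))) 1 ≤ δ / (2 * F.card) := min_le_left _ _
  have h3 : (F.card : ℝ) * (1 - 2 * min (δ / (2 * F.card)) 1) ≤
      (F.card : ℝ) * (1 - min (δ / (2 * F.card)) 1) ^ 2 := by
    apply mul_le_mul_of_nonneg_left _ hF0.le
    nlinarith [sq_nonneg (min (δ / (2 * (F.card : ℝ))) 1)]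
  have h4 : 2 * (F.card : ℝ) * min (δ / (2 * F.card)) 1 ≤ 2 * F.card * (δ / (2 * F.card)) :=
    mul_le_mul_of_nonneg_left h2 (by positivity)
  have h5 : 2 * (F.card : ℝ) * (δ / (2 * F.card)) = δ := by field_simp
  linarith

end Pool.Agent.TH65.B.Am
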