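import Pool.Agent.H919R3.Stmt.Defs

/-!
# Definitions for the result on `MP_42532b_al`
-/

set_option autoImplicit false

namespace Pool.Agent.TH65.B

/-- `A` is amenable (as a discrete group): there is a finitely additive probability measure `m` on
the set of all subsets of `A` which is invariant under left translations. -/
def IsAmenable (A : Type) [Group A] : Prop :=
  ∃ m : Set A → ℝ, (∀ B, 0 ≤ m B) ∧ m Set.univ = 1 ∧
    (∀ B C, Disjoint B C → m (B ∪ C) = m B + m C) ∧
    ∀ (a : A) (B : Set A), m ((fun x => a * x) '' B) = m B

end Pool.Agent.TH65.B
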