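import Pool.Agent.TH63.RD.Step

/-!
# One step: self-centralizing torsion of prime order and rapid decay (helper65)
-/

set_option autoImplicit false

namespace Pool.Agent.TH65.B

open Pool.Agent.TH64 Pool.Agent.TH63.RD

/-- hyperbolic groups with control on torsion and on rapid decay; the orders of the nontrivial
torsion elements are in `Ps` -/
structure LevP {G : Type} [Group G] (H : Hyp G) (E : ℝ) (Ps : Finset ℕ) : Prop where
  rd : ∀ r : ℕ, RDB H.len r (E * (1 + r) ^ 7)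
  tor : ∀ a : G, a ≠ 1 → IsOfFinOrder a → orderOf a ∈ Ps
  cen : ∀ a g : G, a ≠ 1 → IsOfFinOrder a → a * g = g * a → g ∈ Subgroup.zpowers a

theorem LevP.mono {G : Type} [Group G] {H : Hyp G} {E E' : ℝ} {Ps : Finset ℕ} (h : LevP H E Ps)
    (hE : E ≤ E') : LevP H E' Ps :=
  ⟨fun r => (h.rd r).mono (mul_le_mul_of_nonneg_right hE (by positivity)), h.tor, h.cen⟩

theorem LevP.com {G : Type} [Group G] {H : Hyp G} {E : ℝ} {Ps : Finset ℕ} (h : LevP H E Ps) :
    ∀ a g : G, a ≠ 1 → IsOfFinOrder a → a * g = g * a → IsOfFinOrder g := by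
  intro a g ha ha' hag
  obtain ⟨k, hk⟩ := h.cen a g ha ha' hag
  have hk' : a ^ k = g := hk
  rw [← hk']
  exact ha'.zpow

theorem LevP.odd {G : Type} [Group G] {H : Hyp G} {E : ℝ} {Ps : Finset ℕ} (h : LevP H E Ps)
    (hPs : ∀ p ∈ Ps, p.Prime ∧ Odd p) : ∀ a : G, IsOfFinOrder a → Odd (orderOf a) := by
  intro a ha
  by_cases h1 : a = 1
  · rw [h1, orderOf_one]
    exact odd_one
  · exact (hPs _ (h.tor a h1 ha)).2

theorem mk_left {G : Type*} [Group G] (M : Subgroup G) [M.Normal] {n : G} (h : G) (hn : n ∈ M) :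
    ((n * h : G) : G ⧸ M) = (h : G ⧸ M) := by
  rw [QuotientGroup.mk_mul, (QuotientGroup.eq_one_iff n).2 hn, one_mul]

theorem mk_conj {G : Type*} [Group G] (M : Subgroup G) [M.Normal] {h b : G} (p : G)
    (hb : (h : G ⧸ M) = (b : G ⧸ M)) :
    ((p * h * p⁻¹ : G) : G ⧸ M) = ((p * b * p⁻¹ : G) : G ⧸ M) := by
  rw [QuotientGroup.mk_mul, QuotientGroup.mk_mul, QuotientGroup.mk_mul,
    QuotientGroup.mk_mul, hb]

theorem zpow_conj' {G : Type*} [Group G] (g z : G) (m : ℤ) : (g * z * g⁻¹) ^ m = g * z ^ m * g⁻¹ :=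
  conj_zpow

/-- torsion of the quotient -/
theorem lev_quot {G : Type} [Group G] {H : Hyp G} {x : G} (A : Ax H x) {E : ℝ} {Ps : Finset ℕ}
    (hL : LevP H E Ps) (hPs : ∀ p ∈ Ps, p.Prime ∧ Odd p) : ∃ N0 : ℕ, ∀ N ≥ N0, N.Prime →
    ∀ (M : Subgroup G) [M.Normal], Fill A N M →
      (∀ a : G ⧸ M, a ≠ 1 → IsOfFinOrder a → orderOf a ∈ insert N Ps) ∧
      (∀ a g : G ⧸ M, a ≠ 1 → IsOfFinOrder a → a * g = g * a → g ∈ Subgroup.zpowers a) := by
  obtain ⟨N2, h2⟩ := tor A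
  obtain ⟨N3, h3⟩ := comm_small A (2 * H.D + 1)
  obtain ⟨N4, h4⟩ := comm_x_of A (pmin A) (fun R => comm_small A R)
  refine ⟨N2 + N3 + N4 + 1, ?_⟩
  intro N hN hNp M hM hF
  have hxN : (x : G ⧸ M) ^ N = 1 := by
    have := hF.rot 1 1
    unfold PAx.rt at this
    rw [one_mul, inv_one, mul_one, mul_one, zpow_natCast] at this
    rw [← QuotientGroup.mk_pow]
    exact (QuotientGroup.eq_one_iff _).2 this
  -- torsion elements of the quotient
  have htor : ∀ q : G ⧸ M, IsOfFinOrder q → ∃ a : G, (a : G ⧸ M) = q ∧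
      (IsOfFinOrder a ∨ ∃ g : G, g⁻¹ * a * g ∈ Subgroup.zpowers x) := by
    intro q hq
    obtain ⟨z, rfl⟩ := QuotientGroup.mk_surjective q
    obtain ⟨m, hm, hm1⟩ := isOfFinOrder_iff_pow_eq_one.1 hq
    rw [← QuotientGroup.mk_pow, QuotientGroup.eq_one_iff] at hm1
    obtain ⟨n, hn, h⟩ := h2 N (by omega) M hF z m hm hm1
    exact ⟨z * n, mk_mul_mem M z hn, h⟩
  have hcomm : ∀ a g' : G, (a : G ⧸ M) * (g' : G ⧸ M) = (g' : G ⧸ M) * (a : G ⧸ M) →
      ((a⁻¹ * g' * a * g'⁻¹ : G) : G ⧸ M) = 1 := by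
    intro a g' hqq
    have : ((a⁻¹ * g' * a * g'⁻¹ : G) : G ⧸ M) =
        (a : G ⧸ M)⁻¹ * ((g' : G ⧸ M) * (a : G ⧸ M)) * (g' : G ⧸ M)⁻¹ := by
      simp only [QuotientGroup.mk_mul, QuotientGroup.mk_inv]
      group
    rw [this, ← hqq]
    group
  -- the case of conjugates of powers of `x`
  have hconj : ∀ (a g : G) (j : ℤ), x ^ j = g⁻¹ * a * g →
      (a : G ⧸ M) = (g : G ⧸ M) * (x : G ⧸ M) ^ j * (g : G ⧸ M)⁻¹ := by
    intro a g j hj'
    have e1 : a = g * x ^ j * g⁻¹ := by rw [hj']; group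
    rw [e1]
    rfl
  refine ⟨?_, ?_⟩
  · intro q hq1 hq
    rw [Finset.mem_insert]
    obtain ⟨a, rfl, ha | ⟨g, hg⟩⟩ := htor q hq
    · right
      have ha1 : a ≠ 1 := by
        rintro rfl
        exact hq1 rfl
      have h5 : orderOf (a : G ⧸ M) ∣ orderOf a := orderOf_map_dvd (QuotientGroup.mk' M) a
      have h6 := hL.tor a ha1 ha
      rcases (Nat.dvd_prime (hPs _ h6).1).1 h5 with h7 | h7
      · exact absurd (orderOf_eq_one_iff.1 h7) hq1
      · rw [h7]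
        exact h6
    · left
      obtain ⟨j, hj⟩ := hg
      have hj' : x ^ j = g⁻¹ * a * g := hj
      have h5 : (a : G ⧸ M) ^ N = 1 := by
        rw [hconj a g j hj', conj_pow, ← zpow_natCast, ← zpow_mul, mul_comm, zpow_mul,
          zpow_natCast, hxN, one_zpow]
        group
      rcases (Nat.dvd_prime hNp).1 (orderOf_dvd_of_pow_eq_one h5) with h7 | h7
      · exact absurd (orderOf_eq_one_iff.1 h7) hq1
      · exact h7
  · intro q q' hq1 hq hqq
    obtain ⟨g', rfl⟩ := QuotientGroup.mk_surjective q'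
    obtain ⟨a, rfl, ha | ⟨g, hg⟩⟩ := htor q hq
    · obtain ⟨p, hp⟩ := ft H a ha
      set b := p⁻¹ * a * p with hb
      set h := p⁻¹ * g' * p with hh
      have hbne : b ≠ 1 := by
        intro hb1
        apply hq1
        have : a = p * b * p⁻¹ := by rw [hb]; group
        rw [this, hb1]
        simp
      have hbh : b⁻¹ * h * b * h⁻¹ ∈ M := by
        rw [← QuotientGroup.eq_one_iff]
        have e1 : b⁻¹ * h * b * h⁻¹ = p⁻¹ * (a⁻¹ * g' * a * g'⁻¹) * p := by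
          rw [hb, hh]
          group
        rw [e1, QuotientGroup.mk_mul, QuotientGroup.mk_mul, hcomm a g' hqq, QuotientGroup.mk_inv]
        group
      obtain ⟨n, hn, hcn⟩ := h3 N (by omega) M hF b h hp hbh
      obtain ⟨k, hk⟩ := hL.cen b (n * h) hbne (fin_conj ha) hcn.symm
      have hk' : b ^ k = n * h := hk
      refine ⟨k, ?_⟩
      show (a : G ⧸ M) ^ k = (g' : G ⧸ M)
      have e3 : ((h : G) : G ⧸ M) = ((b ^ k : G) : G ⧸ M) := by
        rw [hk']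
        exact (mk_left M h hn).symm
      have e4 : g' = p * h * p⁻¹ := by rw [hh]; group
      have e5 : a = p * b * p⁻¹ := by rw [hb]; group
      have e6 : ((p * h * p⁻¹ : G) : G ⧸ M) = ((p * b ^ k * p⁻¹ : G) : G ⧸ M) := mk_conj M p e3
      have e7 : (a : G ⧸ M) ^ k = ((p * b ^ k * p⁻¹ : G) : G ⧸ M) := by
        rw [← QuotientGroup.mk_zpow]
        nth_rewrite 1 [e5]
        rw [zpow_conj']
      rw [e7, ← e6, ← e4]
    · obtain ⟨j, hj⟩ := hg
      have hj' : x ^ j = g⁻¹ * a * g := hj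
      set h := g⁻¹ * g' * g with hh
      have hNj : ¬ (N : ℤ) ∣ j := by
        rintro ⟨k, hk⟩
        apply hq1
        rw [hconj a g j hj', hk, zpow_mul, zpow_natCast, hxN, one_zpow]
        group
      have hbh : x ^ (-j) * h * x ^ j * h⁻¹ ∈ M := by
        rw [← QuotientGroup.eq_one_iff]
        have e1 : x ^ (-j) * h * x ^ j * h⁻¹ = g⁻¹ * (a⁻¹ * g' * a * g'⁻¹) * g := by
          rw [zpow_neg, hj', hh]
          group
        rw [e1, QuotientGroup.mk_mul, QuotientGroup.mk_mul, hcomm a g' hqq, QuotientGroup.mk_inv]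
        group
      obtain ⟨n, hn, k, hk⟩ := h4 N (by omega) M hF j h hNj hbh
      have e3 : ((h : G) : G ⧸ M) = (x : G ⧸ M) ^ k := by
        rw [hk, QuotientGroup.mk_mul, (QuotientGroup.eq_one_iff n).2 hn, one_mul,
          QuotientGroup.mk_zpow]
      -- `x` is a power of `x ^ j` modulo `M`
      have hcop : IsCoprime (N : ℤ) j := by
        rw [Int.isCoprime_iff_gcd_eq_one]
        have hNp' : Prime (N : ℤ) := Nat.prime_iff_prime_int.1 hNp
        exact (Int.isCoprime_iff_gcd_eq_one).1 ((Prime.coprime_iff_not_dvd hNp').2 hNj)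
      obtain ⟨u, v, huv⟩ := hcop
      have e6 : (x : G ⧸ M) = ((x : G ⧸ M) ^ j) ^ v := by
        have e7 : (x : G ⧸ M) ^ (u * (N : ℤ) + v * j) = (x : G ⧸ M) := by rw [huv, zpow_one]
        have e8 : (x : G ⧸ M) ^ (u * (N : ℤ) + v * j) = ((x : G ⧸ M) ^ j) ^ v := by
          rw [zpow_add, mul_comm u, zpow_mul, zpow_natCast, hxN, one_zpow, one_mul, mul_comm v,
            zpow_mul]
        rw [← e8, e7]
      refine ⟨v * k, ?_⟩
      show (a : G ⧸ M) ^ (v * k) = (g' : G ⧸ M)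
      rw [hconj a g j hj', zpow_conj', zpow_mul, ← e6, ← e3, hh]
      simp only [QuotientGroup.mk_mul, QuotientGroup.mk_inv]
      group

/-- an infinite order element is a power of an element with an axis -/
theorem exists_root {G : Type} [Group G] {H : Hyp G} {E : ℝ} {Ps : Finset ℕ}
    (hL : LevP H E Ps) (hPs : ∀ p ∈ Ps, p.Prime ∧ Odd p) (γ : G) (hγ : ¬ IsOfFinOrder γ) :
    ∃ x : G, (∃ j : ℤ, x ^ j = γ ∧ j ≠ 0) ∧ ¬ IsOfFinOrder x ∧ Nonempty (Ax H x) := by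
  obtain ⟨Pγ⟩ := exists_pax' H hγ
  obtain ⟨x, ⟨j, hj⟩, hEx⟩ := TH142.J487.elem H (hL.odd hPs) hL.com γ Pγ
  have hx : ¬ IsOfFinOrder x := by
    intro h
    apply hγ
    rw [← hj]
    exact h.zpow
  obtain ⟨P⟩ := exists_pax' H hx
  have hj0 : j ≠ 0 := by
    rintro rfl
    apply hγ
    rw [← hj, zpow_zero]
    exact IsOfFinOrder.one
  refine ⟨x, ⟨j, hj, hj0⟩, hx, exists_ax P ?_⟩
  intro g hg
  obtain ⟨s, hs, t, ht, hst⟩ := hg
  apply hEx g
  -- raise to the power `j`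
  have h1 : ∀ k : ℤ, g * γ ^ (t * k) * g⁻¹ = γ ^ ((s : ℤ) * k) := by
    intro k
    have h2 : (g * x ^ t * g⁻¹) ^ (j * k) = (x ^ (s : ℤ)) ^ (j * k) := by rw [hst]
    rw [conj_zpow, ← zpow_mul, ← zpow_mul] at h2
    rw [← hj, ← zpow_mul, ← zpow_mul]
    rw [show j * (t * k) = t * (j * k) by ring, show j * (s * k) = s * (j * k) by ring]
    exact h2
  have h2 := h1 1
  rw [mul_one, mul_one] at h2
  exact ⟨s, hs, t, ht, h2⟩

/-- **the one step theorem** -/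
theorem stepP {G : Type} [Group G] {H : Hyp G} {E E' : ℝ} (hE : 1 ≤ E) (hEE : E < E')
    {Ps : Finset ℕ} (hPs : ∀ p ∈ Ps, p.Prime ∧ Odd p) (hL : LevP H E Ps) {x : G} (A : Ax H x)
    (Z : Set G) (hZ : Z.Finite) : ∃ N0 : ℕ, ∀ N ≥ N0, N.Prime →
    (∃ H' : Hyp (G ⧸ Subgroup.normalClosure ({x ^ N} : Set G)),
      (∀ q, H'.len q = H.qlen (Subgroup.normalClosure ({x ^ N} : Set G)) q) ∧
      LevP H' E' (insert N Ps)) ∧
    (∀ z ∈ Z, z ∈ Subgroup.normalClosure ({x ^ N} : Set G) → z = 1) ∧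
    (∀ k : ℤ, x ^ k ∈ Subgroup.normalClosure ({x ^ N} : Set G) → (N : ℤ) ∣ k) := by
  obtain ⟨rr, hrr⟩ : ∃ rr : ℕ, ∀ a ∈ Z, H.len a ≤ rr := by
    obtain ⟨rr, h⟩ := (hZ.image H.len).bddAbove
    exact ⟨rr, fun a ha => h ⟨a, ha, rfl⟩⟩
  obtain ⟨N1, h1⟩ := lev_quot A hL hPs
  obtain ⟨N2, h2⟩ := quot_hyp_len A
  obtain ⟨N3, h3⟩ := rd_step A E E' hE hEE hL.rd
  obtain ⟨N4, h4⟩ := inj_small A rr
  obtain ⟨N5, h5⟩ := ord_x A
  refine ⟨N1 + N2 + N3 + N4 + N5 + (40 * A.th + 1), ?_⟩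
  intro N hN hNp
  have hF := fill_normalClosure A N (by omega)
  obtain ⟨hq1, hq2⟩ := h1 N (by omega) hNp _ hF
  obtain ⟨H', hH'⟩ := h2 N (by omega) _ hF
  refine ⟨⟨H', hH', ?_, hq1, hq2⟩, ?_, ?_⟩
  · intro r
    have h6 := h3 N (by omega) _ hF r
    have h7 : H'.len = H.qlen (Subgroup.normalClosure ({x ^ N} : Set G)) := funext hH'
    rw [h7]
    exact h6
  · intro z hz hzM
    exact h4 N (by omega) _ hF z hzM (hrr z hz)
  · exact h5 N (by omega) _ hF

end Pool.Agent.TH65.B
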