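import Pool.Agent.TH65.B.Tower
import Pool.Agent.TH63.RD.X429.RDLim

/-!
# The limit of the tower (helper65)
-/

set_option autoImplicit false

namespace Pool.Agent.TH65.B

open Pool.Agent.TH64 Pool.Agent.TH63.RD Pool.Agent.TH63.RD.X429.RDLim

/-- one full step -/
theorem full_step (K : ℝ) (d : ℕ) {E E' : ℝ} (hE : 1 ≤ E) (hEE : E < E') (D : Dt E) (γ a b : F2)
    (j : ℕ) :
    ∃ D' : Dt E', D.R ≤ D'.R ∧ D.Z ⊆ D'.Z ∧ (∃ m : ℕ, 1 ≤ m ∧ γ ^ m ∈ D'.R) ∧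
      (D'.R = D.R ∨ ∃ (X : F2) (N : ℕ), N.Prime ∧ 2 ^ (j + 2) ≤ N ∧ X ∈ D'.Z ∧ X ^ N ∈ D'.R ∧
        ∀ K : Subgroup F2, K.Normal → D.R ≤ K → X ^ N ∈ K → D'.R ≤ K) ∧
      (a * b * a⁻¹ * b⁻¹ ∉ D.R →
        ∃ (r : ℕ) (F : Finset F2), (∀ g ∈ F, g.norm ≤ r ∧
          ∃ g2 ∈ Subgroup.closure ({a, b} : Set F2), g⁻¹ * g2 ∈ D.R) ∧
          K * (1 + r) ^ d < F.card ∧ ∀ g ∈ F, ∀ h ∈ F, g ≠ h → g⁻¹ * h ∈ D'.Z) ∧
      (∀ i : Fin 2, ∃ X Y : F2, FreeGroup.of i = X * Y ∧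
        ∀ q : ℕ, 1 ≤ q → q ≤ j → X ^ q ∈ D'.Z ∧ Y ^ q ∈ D'.Z) := by
  classical
  obtain ⟨Y1, hY1, hpair⟩ := task_pair D K d a b
  have hf := fun i : Fin 2 => task_fac D (FreeGroup.of i)
  choose X Y hXY hXYq using hf
  set Z2 : Finset F2 := Finset.univ.biUnion (fun i : Fin 2 =>
    (Finset.Icc 1 j).image (fun q => X i ^ q) ∪ (Finset.Icc 1 j).image (fun q => Y i ^ q)) with hZ2
  obtain ⟨D', h1, h2, h3, h4⟩ := step_kill hE hEE D (D.Z ∪ Y1 ∪ Z2)
    (fun z hz => by simp [hz]) (by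
      intro z hz
      rcases Finset.mem_union.1 hz with hz | hz
      · rcases Finset.mem_union.1 hz with hz | hz
        · exact D.z z hz
        · exact hY1 z hz
      · rw [hZ2, Finset.mem_biUnion] at hz
        obtain ⟨i, -, hi⟩ := hz
        rcases Finset.mem_union.1 hi with hi | hi
        · obtain ⟨q, hq, rfl⟩ := Finset.mem_image.1 hi
          exact (hXYq i q (Finset.mem_Icc.1 hq).1).1
        · obtain ⟨q, hq, rfl⟩ := Finset.mem_image.1 hi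
          exact (hXYq i q (Finset.mem_Icc.1 hq).1).2) γ (2 ^ (j + 2))
  refine ⟨D', h1, fun z hz => h2 (by simp [hz]), h3, h4, ?_, ?_⟩
  · intro hab
    obtain ⟨r, F, hF1, hF2, hF3⟩ := hpair hab
    exact ⟨r, F, hF1, hF2, fun g hg h hh hgh => h2 (by simp [hF3 g hg h hh hgh])⟩
  · intro i
    refine ⟨X i, Y i, hXY i, fun q hq hqj => ⟨h2 ?_, h2 ?_⟩⟩
    · rw [Finset.mem_union]
      right
      rw [hZ2, Finset.mem_biUnion]
      exact ⟨i, Finset.mem_univ _, Finset.mem_union_left _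
        (Finset.mem_image.2 ⟨q, Finset.mem_Icc.2 ⟨hq, hqj⟩, rfl⟩)⟩
    · rw [Finset.mem_union]
      right
      rw [hZ2, Finset.mem_biUnion]
      exact ⟨i, Finset.mem_univ _, Finset.mem_union_right _
        (Finset.mem_image.2 ⟨q, Finset.mem_Icc.2 ⟨hq, hqj⟩, rfl⟩)⟩

/-- the constants -/
noncomputable def Ej (E0 : ℝ) (j : ℕ) : ℝ := E0 * (2 - (1 / 2) ^ j)

theorem Ej_zero (E0 : ℝ) : Ej E0 0 = E0 := by unfold Ej; norm_num

theorem Ej_ge {E0 : ℝ} (h : 1 ≤ E0) (j : ℕ) : 1 ≤ Ej E0 j := by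
  unfold Ej
  have h1 : ((1 : ℝ) / 2) ^ j ≤ 1 := pow_le_one₀ (by norm_num) (by norm_num)
  nlinarith

theorem Ej_lt {E0 : ℝ} (h : 1 ≤ E0) (j : ℕ) : Ej E0 j < Ej E0 (j + 1) := by
  unfold Ej
  have h1 : (0 : ℝ) < ((1 : ℝ) / 2) ^ j := by positivity
  rw [pow_succ]
  nlinarith

theorem Ej_le {E0 : ℝ} (h : 1 ≤ E0) (j : ℕ) : Ej E0 j ≤ 2 * E0 := by
  unfold Ej
  have h1 : (0 : ℝ) < ((1 : ℝ) / 2) ^ j := by positivity
  nlinarith

theorem c0_ne : c0 ≠ 1 := by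
  unfold c0
  decide

theorem gen_ne : (FreeGroup.of (0 : Fin 2))⁻¹ * FreeGroup.of 1 ≠ 1 := by
  decide

/-- the free group -/
noncomputable def base (E0 : ℝ)
    (hbase : ∀ r : ℕ, RDB (G := FreeGroup (Fin 2)) FreeGroup.norm r (E0 * (1 + r) ^ 7)) :
    Dt E0 where
  R := ⊥
  Ps := ∅
  Z := {c0, (FreeGroup.of (0 : Fin 2))⁻¹ * FreeGroup.of 1}
  st := by
    refine ⟨F2, inferInstance, MonoidHom.id _, FreeBase.freeHyp,
      Function.surjective_id, ?_, ?_, ?_, ?_⟩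
    · intro g
      rw [Subgroup.mem_bot]
      rfl
    · intro g
      exact le_rfl
    · intro g
      exact ⟨g, rfl, le_rfl⟩
    · refine ⟨hbase, ?_, ?_⟩
      · intro a ha ha'
        exact absurd (FreeBase.free_torsion_free a ha') ha
      · intro a g ha ha'
        exact absurd (FreeBase.free_torsion_free a ha') ha
  pr := by
    intro p hp
    exact absurd hp (Finset.notMem_empty p)
  sep := by
    intro p hp
    exact absurd hp (Finset.notMem_empty p)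
  z := by
    intro z hz
    rw [Subgroup.mem_bot]
    rw [Finset.mem_insert, Finset.mem_singleton] at hz
    rcases hz with rfl | rfl
    · exact c0_ne
    · exact gen_ne
  cm := Finset.mem_insert_self _ _

/-- **the limit group** -/
theorem limit : ∃ (E0 : ℝ) (R : ℕ → Subgroup F2) (Ri : Subgroup F2) (_ : Ri.Normal),
    0 ≤ E0 ∧ Monotone R ∧ (∀ g, g ∈ Ri ↔ ∃ j, g ∈ R j) ∧
    (∀ r : ℕ, RDB (FreeBase.freeHyp.qlen Ri) r (E0 * (1 + r) ^ 7)) ∧
    Monoid.IsTorsion (F2 ⧸ Ri) ∧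
    (∀ a g : F2 ⧸ Ri, a ≠ 1 → a * g = g * a → g ∈ Subgroup.zpowers a) ∧
    (∀ a : F2 ⧸ Ri, a ≠ 1 → (orderOf a).Prime) ∧
    (∀ a b : F2 ⧸ Ri, a * b ≠ b * a → ∃ (r : ℕ) (F : Finset (F2 ⧸ Ri)),
      (∀ g ∈ F, g ∈ Subgroup.closure ({a, b} : Set (F2 ⧸ Ri)) ∧ FreeBase.freeHyp.qlen Ri g ≤ r) ∧
      E0 * (1 + r) ^ 7 < F.card) ∧
    (∀ (k : ℕ) (i : Fin 2), ∃ X Y : F2 ⧸ Ri, ((FreeGroup.of i : F2) : F2 ⧸ Ri) = X * Y ∧
      k < orderOf X ∧ k < orderOf Y) ∧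
    (∃ (ι : Type) (w : ι → F2) (N : ι → ℕ), (∀ i, (N i).Prime) ∧
      (∀ i, orderOf ((w i : F2) : F2 ⧸ Ri) = N i) ∧
      (∀ K : Subgroup F2, K.Normal → (∀ i, w i ^ N i ∈ K) → Ri ≤ K) ∧
      ∀ s : Finset ι, ∑ i ∈ s, (1 : ℝ) / N i ≤ 1 / 2) ∧
    ((FreeGroup.of 0 : F2) : F2 ⧸ Ri) ≠ ((FreeGroup.of 1 : F2) : F2 ⧸ Ri) := by
  classical
  obtain ⟨E0, hE0, hbase⟩ := rd_hyp FreeBase.freeHyp
  obtain ⟨en, hen⟩ := exists_surjective_nat (F2 × F2 × F2)
  have hstep : ∀ (j : ℕ) (D : Dt (Ej E0 j)), ∃ D' : Dt (Ej E0 (j + 1)), D.R ≤ D'.R ∧ D.Z ⊆ D'.Z ∧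
      (∃ m : ℕ, 1 ≤ m ∧ (en j).1 ^ m ∈ D'.R) ∧
      (D'.R = D.R ∨ ∃ (X : F2) (N : ℕ), N.Prime ∧ 2 ^ (j + 2) ≤ N ∧ X ∈ D'.Z ∧ X ^ N ∈ D'.R ∧
        ∀ K : Subgroup F2, K.Normal → D.R ≤ K → X ^ N ∈ K → D'.R ≤ K) ∧
      ((en j).2.1 * (en j).2.2 * (en j).2.1⁻¹ * (en j).2.2⁻¹ ∉ D.R →
        ∃ (r : ℕ) (F : Finset F2), (∀ g ∈ F, g.norm ≤ r ∧
          ∃ g2 ∈ Subgroup.closure ({(en j).2.1, (en j).2.2} : Set F2), g⁻¹ * g2 ∈ D.R) ∧
          (2 * E0) * (1 + r) ^ 7 < F.card ∧ ∀ g ∈ F, ∀ h ∈ F, g ≠ h → g⁻¹ * h ∈ D'.Z) ∧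
      (∀ i : Fin 2, ∃ X Y : F2, FreeGroup.of i = X * Y ∧
        ∀ q : ℕ, 1 ≤ q → q ≤ j → X ^ q ∈ D'.Z ∧ Y ^ q ∈ D'.Z) :=
    fun j D => full_step (2 * E0) 7 (Ej_ge hE0 j) (Ej_lt hE0 j) D _ _ _ j
  choose nx n1 n2 n3 n4 n5 n6 using hstep
  let sq' : (j : ℕ) → Dt (Ej E0 j) := fun j =>
    Nat.rec (motive := fun j => Dt (Ej E0 j))
      (base (Ej E0 0) (by rw [Ej_zero]; exact hbase)) (fun j D => nx j D) j
  have hsucc : ∀ j, sq' (j + 1) = nx j (sq' j) := fun j => rfl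
  have hmono : Monotone (fun j => (sq' j).R) := by
    apply monotone_nat_of_le_succ
    intro j
    rw [hsucc]
    exact n1 j _
  have hmonoZ : Monotone (fun j => (sq' j).Z) := by
    apply monotone_nat_of_le_succ
    intro j
    rw [hsucc]
    exact n2 j _
  set Ri : Subgroup F2 := ⨆ j, (sq' j).R with hRi
  have hmem : ∀ g, g ∈ Ri ↔ ∃ j, g ∈ (sq' j).R := by
    intro g
    exact Subgroup.mem_iSup_of_directed hmono.directed_le
  have hZout : ∀ j, ∀ z ∈ (sq' j).Z, z ∉ Ri := by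
    intro j z hz hzR
    obtain ⟨i, hi⟩ := (hmem z).1 hzR
    exact (sq' (max i j)).z z (hmonoZ (le_max_right i j) hz) (hmono (le_max_left i j) hi)
  have hnormj : ∀ j, ((sq' j).R).Normal := by
    intro j
    obtain ⟨Q, _, ψ, H, -, hker, -⟩ := (sq' j).st.ex
    have : (sq' j).R = ψ.ker := by
      ext g
      rw [MonoidHom.mem_ker, hker]
    rw [this]
    infer_instance
  have hnorm : Ri.Normal := by
    constructor
    intro n hn g
    rw [hmem] at hn ⊢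
    obtain ⟨j, hj⟩ := hn
    exact ⟨j, (hnormj j).conj_mem n hj g⟩
  have hmk : ∀ g : F2, ((g : F2) : F2 ⧸ Ri) = 1 ↔ g ∈ Ri := fun g => QuotientGroup.eq_one_iff g
  have htors : Monoid.IsTorsion (F2 ⧸ Ri) := by
    intro q
    obtain ⟨g, rfl⟩ := QuotientGroup.mk_surjective q
    obtain ⟨j, hj⟩ := hen (g, 1, 1)
    obtain ⟨m, hm, hmR⟩ := n3 j (sq' j)
    rw [isOfFinOrder_iff_pow_eq_one]
    refine ⟨m, hm, ?_⟩
    rw [← QuotientGroup.mk_pow, hmk, hmem]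
    exact ⟨j + 1, by rw [hsucc]; rw [hj] at hmR; exact hmR⟩
  -- a level where a given element has finite order
  have hlev : ∀ g : F2, g ∉ Ri → ∀ i, ∃ j, i ≤ j ∧ ∃ (Q : Type) (_ : Group Q) (ψ : F2 →* Q)
      (H : Hyp Q), (∀ g, ψ g = 1 ↔ g ∈ (sq' j).R) ∧ LevP H (Ej E0 j) (sq' j).Ps ∧
      IsOfFinOrder (ψ g) ∧ ψ g ≠ 1 := by
    intro g hg i
    obtain ⟨m, hm, hm1⟩ := isOfFinOrder_iff_pow_eq_one.1 (htors ((g : F2) : F2 ⧸ Ri))
    rw [← QuotientGroup.mk_pow, hmk, hmem] at hm1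
    obtain ⟨j, hj⟩ := hm1
    refine ⟨max i j, le_max_left _ _, ?_⟩
    obtain ⟨Q, hQ, ψ, H, -, hker, -, -, hL⟩ := (sq' (max i j)).st.ex
    refine ⟨Q, hQ, ψ, H, hker, hL, ?_, ?_⟩
    · rw [isOfFinOrder_iff_pow_eq_one]
      refine ⟨m, hm, ?_⟩
      rw [← map_pow, hker]
      exact hmono (le_max_right i j) hj
    · intro h
      apply hg
      rw [hmem]
      exact ⟨_, (hker g).1 h⟩
  have hprime : ∀ a : F2 ⧸ Ri, a ≠ 1 → (orderOf a).Prime := by
    intro a ha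
    obtain ⟨g, rfl⟩ := QuotientGroup.mk_surjective a
    have hg : g ∉ Ri := fun h => ha ((hmk g).2 h)
    obtain ⟨j, -, Q, _, ψ, H, hker, hL, hfin, hne⟩ := hlev g hg 0
    have h1 := hL.tor _ hne hfin
    have h2 := ((sq' j).pr _ h1).1
    have h3 : ((g : F2) : F2 ⧸ Ri) ^ (orderOf (ψ g)) = 1 := by
      rw [← QuotientGroup.mk_pow, hmk, hmem]
      exact ⟨j, by rw [← hker, map_pow, pow_orderOf_eq_one]⟩
    rcases (Nat.dvd_prime h2).1 (orderOf_dvd_of_pow_eq_one h3) with h4 | h4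
    · exact absurd (orderOf_eq_one_iff.1 h4) ha
    · rw [h4]
      exact h2
  refine ⟨2 * E0, fun j => (sq' j).R, Ri, hnorm, by linarith, hmono, hmem, ?_, htors, ?_, hprime,
    ?_, ?_, ?_, ?_⟩
  · -- rapid decay
    intro r
    refine rd_lim (QuotientGroup.mk' Ri) FreeGroup.norm (FreeBase.freeHyp.qlen Ri) ?_ r _ ?_
    · intro q
      obtain ⟨g, hg, hl⟩ := FreeBase.freeHyp.qlen_rep Ri q
      exact ⟨g, hg, hl.le⟩
    · intro T
      obtain ⟨j, hj⟩ : ∃ j, ∀ g ∈ T, g ∈ Ri → g ∈ (sq' j).R := by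
        induction T using Finset.induction_on with
        | empty => exact ⟨0, fun g hg => absurd hg (Finset.notMem_empty g)⟩
        | insert a T _ ih =>
          obtain ⟨j, hj⟩ := ih
          by_cases ha : a ∈ Ri
          · obtain ⟨i, hi⟩ := (hmem a).1 ha
            refine ⟨max i j, ?_⟩
            intro g hg hgR
            rcases Finset.mem_insert.1 hg with rfl | hg
            · exact hmono (le_max_left _ _) hi
            · exact hmono (le_max_right _ _) (hj g hg hgR)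
          · refine ⟨j, ?_⟩
            intro g hg hgR
            rcases Finset.mem_insert.1 hg with rfl | hg
            · exact absurd hgR ha
            · exact hj g hg hgR
      obtain ⟨Q, _, ψ, H, -, hker, hlen, -, hL⟩ := (sq' j).st.ex
      refine ⟨Q, inferInstance, ψ, H.len, hlen, (hL.mono (Ej_le hE0 j)).rd r, ?_, ?_⟩
      · intro g hg
        exact (hmk g).2 ((hmem g).2 ⟨j, (hker g).1 hg⟩)
      · intro g hg hg1
        exact (hker g).2 (hj g hg ((hmk g).1 hg1))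
  · -- centralizers
    intro a g ha hag
    obtain ⟨a, rfl⟩ := QuotientGroup.mk_surjective a
    obtain ⟨g, rfl⟩ := QuotientGroup.mk_surjective g
    have ha' : a ∉ Ri := fun h => ha ((hmk a).2 h)
    have hag' : a * g * a⁻¹ * g⁻¹ ∈ Ri := by
      rw [← hmk, QuotientGroup.mk_mul, QuotientGroup.mk_mul, QuotientGroup.mk_mul, hag,
        QuotientGroup.mk_inv, QuotientGroup.mk_inv]
      group
    obtain ⟨i, hi⟩ := (hmem _).1 hag'
    obtain ⟨j, hij, Q, _, ψ, H, hker, hL, hfin, hne⟩ := hlev a ha' i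
    have h1 : ψ a * ψ g = ψ g * ψ a := by
      have h2 := (hker _).2 (hmono hij hi)
      rw [map_mul, map_mul, map_mul, map_inv, map_inv] at h2
      rw [mul_inv_eq_one, mul_inv_eq_iff_eq_mul] at h2
      exact h2
    obtain ⟨k, hk⟩ := hL.cen _ _ hne hfin h1
    have hk' : (ψ a) ^ k = ψ g := hk
    refine ⟨k, ?_⟩
    show ((a : F2) : F2 ⧸ Ri) ^ k = ((g : F2) : F2 ⧸ Ri)
    rw [← QuotientGroup.mk_zpow, ← inv_mul_eq_one, ← QuotientGroup.mk_inv, ← QuotientGroup.mk_mul,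
      hmk, hmem]
    exact ⟨j, by rw [← hker, map_mul, map_inv, map_zpow, hk', inv_mul_cancel]⟩
  · -- growth
    intro a b hab
    obtain ⟨a, rfl⟩ := QuotientGroup.mk_surjective a
    obtain ⟨b, rfl⟩ := QuotientGroup.mk_surjective b
    obtain ⟨j, hj⟩ := hen (1, a, b)
    have hcomm : a * b * a⁻¹ * b⁻¹ ∉ Ri := by
      intro h
      apply hab
      rw [← hmk, QuotientGroup.mk_mul, QuotientGroup.mk_mul, QuotientGroup.mk_mul,
        QuotientGroup.mk_inv, QuotientGroup.mk_inv, mul_inv_eq_one, mul_inv_eq_iff_eq_mul] at h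
      exact h
    have h5 := n5 j (sq' j)
    rw [hj] at h5
    obtain ⟨r, F, hF1, hF2, hF3⟩ := h5 (fun h => hcomm ((hmem _).2 ⟨j, h⟩))
    have hinj : Set.InjOn (fun g : F2 => (g : F2 ⧸ Ri)) F := by
      intro g hg h hh hgh
      by_contra hne
      have h6 := hF3 g hg h hh hne
      have h7 : g⁻¹ * h ∈ Ri := by
        rw [← hmk, QuotientGroup.mk_mul, QuotientGroup.mk_inv]
        have : ((g : F2) : F2 ⧸ Ri) = ((h : F2) : F2 ⧸ Ri) := hgh
        rw [this, inv_mul_cancel]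
      exact hZout (j + 1) _ (by rw [hsucc]; exact h6) h7
    refine ⟨r, F.image (fun g : F2 => (g : F2 ⧸ Ri)), ?_, ?_⟩
    · intro q hq
      obtain ⟨g, hg, rfl⟩ := Finset.mem_image.1 hq
      obtain ⟨hg1, g2, hg2, hg3⟩ := hF1 g hg
      refine ⟨?_, ?_⟩
      · have h8 : ((g : F2) : F2 ⧸ Ri) = ((g2 : F2) : F2 ⧸ Ri) := by
          rw [← inv_mul_eq_one, ← QuotientGroup.mk_inv, ← QuotientGroup.mk_mul, hmk, hmem]
          exact ⟨j, hg3⟩
        have h9 : (Subgroup.closure ({a, b} : Set F2)).map (QuotientGroup.mk' Ri)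
            = Subgroup.closure ({((a : F2) : F2 ⧸ Ri), ((b : F2) : F2 ⧸ Ri)} :
              Set (F2 ⧸ Ri)) := by
          rw [MonoidHom.map_closure, Set.image_pair]
          rfl
        show ((g : F2) : F2 ⧸ Ri) ∈ _
        rw [h8, ← h9]
        exact ⟨g2, hg2, rfl⟩
      · exact (FreeBase.freeHyp.qlen_le Ri g).trans hg1
    · rw [Finset.card_image_of_injOn hinj]
      exact hF2
  · -- factorizations
    intro k i
    obtain ⟨X, Y, hXY, hq⟩ := n6 k (sq' k) i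
    have key : ∀ X : F2, (∀ q : ℕ, 1 ≤ q → q ≤ k → X ^ q ∈ (sq' (k + 1)).Z) →
        k < orderOf ((X : F2) : F2 ⧸ Ri) := by
      intro X hX
      by_contra hcon
      push Not at hcon
      have h1 : 0 < orderOf ((X : F2) : F2 ⧸ Ri) := (htors _).orderOf_pos
      have h2 := hX _ h1 hcon
      apply hZout (k + 1) _ h2
      rw [← hmk, QuotientGroup.mk_pow, pow_orderOf_eq_one]
    refine ⟨X, Y, by rw [hXY]; rfl, key X ?_, key Y ?_⟩
    · intro q h1 h2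
      rw [hsucc]
      exact (hq q h1 h2).1
    · intro q h1 h2
      rw [hsucc]
      exact (hq q h1 h2).2
  · -- relators
    have hrel : ∀ i : {j : ℕ // (sq' (j + 1)).R ≠ (sq' j).R}, ∃ (X : F2) (N : ℕ), N.Prime ∧
        2 ^ (i.1 + 2) ≤ N ∧ X ∈ (sq' (i.1 + 1)).Z ∧ X ^ N ∈ (sq' (i.1 + 1)).R ∧
        ∀ K : Subgroup F2, K.Normal → (sq' i.1).R ≤ K → X ^ N ∈ K → (sq' (i.1 + 1)).R ≤ K := by
      rintro ⟨j, hj⟩
      rcases n4 j (sq' j) with h | h
      · exact absurd h hj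
      · exact h
    choose w N hNp hNB hwZ hwR hwK using hrel
    refine ⟨_, w, N, hNp, ?_, ?_, ?_⟩
    · intro i
      have : Fact (N i).Prime := ⟨hNp i⟩
      apply orderOf_eq_prime
      · rw [← QuotientGroup.mk_pow, hmk, hmem]
        exact ⟨i.1 + 1, hwR i⟩
      · intro h
        exact hZout (i.1 + 1) _ (hwZ i) ((hmk _).1 h)
    · intro K hK hwin
      have hall : ∀ j, (sq' j).R ≤ K := by
        intro j
        induction j with
        | zero => exact bot_le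
        | succ j ih =>
          by_cases hj : (sq' (j + 1)).R = (sq' j).R
          · rw [hj]
            exact ih
          · exact hwK ⟨j, hj⟩ K hK ih (hwin ⟨j, hj⟩)
      intro g hg
      obtain ⟨j, hj⟩ := (hmem g).1 hg
      exact hall j hj
    · intro s
      have h1 : ∀ i ∈ s, (1 : ℝ) / N i ≤ (1 / 2) ^ (i.1 + 2) := by
        intro i _
        rw [one_div_pow]
        apply one_div_le_one_div_of_le (by positivity)
        exact_mod_cast hNB i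
      calc ∑ i ∈ s, (1 : ℝ) / N i ≤ ∑ i ∈ s, (1 / 2 : ℝ) ^ (i.1 + 2) := Finset.sum_le_sum h1
        _ = ∑ j ∈ s.map (Function.Embedding.subtype _), (1 / 2 : ℝ) ^ (j + 2) := by
            rw [Finset.sum_map]
            rfl
        _ ≤ ∑' j : ℕ, (1 / 2 : ℝ) ^ (j + 2) := by
            apply Summable.sum_le_tsum
            · intro j _
              positivity
            · exact (summable_nat_add_iff 2).2 summable_geometric_two
        _ = 1 / 2 := by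
            have h2 : ∀ j : ℕ, (1 / 2 : ℝ) ^ (j + 2) = (1 / 2) ^ j * (1 / 4) := by
              intro j
              rw [pow_add]
              norm_num
            simp_rw [h2]
            rw [tsum_mul_right, tsum_geometric_two]
            norm_num
  · intro h
    have h1 : (FreeGroup.of (0 : Fin 2))⁻¹ * FreeGroup.of 1 ∈ Ri := by
      rw [← hmk, QuotientGroup.mk_mul, QuotientGroup.mk_inv, h, inv_mul_cancel]
    refine hZout 0 _ ?_ h1
    exact Finset.mem_insert_of_mem (Finset.mem_singleton_self _)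

end Pool.Agent.TH65.B
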