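import Pool.Agent.TH65.B.Limit
import Pool.Agent.TH65.B.Amen
import Pool.Agent.TH65.B.Defs
import Pool.Agent.TH714.L2.Jobs
import Pool.Agent.W361.CS.Fol

/-!
# A torsion group with first `L²`-Betti number between 0 and 1 (helper65)
-/

set_option autoImplicit false

namespace Pool.Agent.TH65.B

open Pool.Agent.TH64 Pool.Agent.TH63.RD Pool.Agent.TH714.L2
open Pool.Agent.H919R3.L2 (b1l2)
open Pool.Agent.H919R3.Stmt (l2Betti)

theorem main : ∃ (G : Type) (_ : Group G), Monoid.IsTorsion G ∧
    (∃ S : Finset G, Subgroup.closure (S : Set G) = ⊤) ∧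
    (∀ S : Finset G, Subgroup.closure (S : Set G) = ⊤ → 0 < l2Betti S ∧ l2Betti S < 1) ∧
    (∀ A : Subgroup G, IsAmenable A → Finite A) ∧
    (∀ G₁ : Subgroup G, G₁.FiniteIndex → G₁ = ⊤) := by
  classical
  obtain ⟨E0, R, Ri, hRi, hE0, hmono, hmem, hrd, htor, hcen, hprime, hgrow, hfac, ⟨ι, w, N, hNp, hord,
    hker, hsum⟩, hne⟩ := limit
  set G := F2 ⧸ Ri with hG
  set φ : F2 →* G := QuotientGroup.mk' Ri with hφ
  have hφs : Function.Surjective φ := QuotientGroup.mk'_surjective Ri
  -- the generating set
  set v : Fin 2 → G := fun i => φ (FreeGroup.of i) with hv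
  have hvinj : Function.Injective v := by
    intro i j hij
    fin_cases i <;> fin_cases j
    · rfl
    · exact absurd hij hne
    · exact absurd hij.symm hne
    · rfl
  set S : Finset G := Finset.univ.image v with hS
  have hScard : S.card = 2 := by
    rw [hS, Finset.card_image_of_injective _ hvinj]
    rfl
  have hSgen : Subgroup.closure (S : Set G) = ⊤ := by
    rw [hS, Finset.coe_image, Finset.coe_univ, Set.image_univ]
    have h1 : Set.range v = φ '' (Set.range FreeGroup.of) := by
      rw [← Set.range_comp]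
      rfl
    rw [h1, ← MonoidHom.map_closure, FreeGroup.closure_range_of, ← MonoidHom.range_eq_map]
    exact MonoidHom.range_eq_top.2 hφs
  let e : Fin 2 ≃ S := Equiv.ofBijective (fun i => ⟨v i, Finset.mem_image_of_mem _
    (Finset.mem_univ i)⟩) (by
      constructor
      · intro i j hij
        exact hvinj (congrArg Subtype.val hij)
      · rintro ⟨x, hx⟩
        obtain ⟨i, -, hi⟩ := Finset.mem_image.1 hx
        exact ⟨i, Subtype.ext hi⟩)
  -- the lower bound
  have hlow : (1 : ℝ) / 2 ≤ b1l2 S := by
    have h1 := lower_rel S φ hφs e (fun i => rfl) w N (fun i => (hNp i).one_lt.le) hord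
      (fun K hK hw => by
        rw [hφ, QuotientGroup.ker_mk']
        exact hker K hK hw) (1 / 2) hsum
    rw [hScard] at h1
    push_cast at h1
    linarith
  have hinf : Infinite G := by
    by_contra hcon
    rw [not_infinite_iff_finite] at hcon
    have := b1l2_fin S
    linarith
  have hup : b1l2 S < 1 := by
    have h1 := b1l2_lt S hSgen (v 0) (Finset.mem_image_of_mem _ (Finset.mem_univ _)) (htor _)
    rw [hScard] at h1
    push_cast at h1
    linarith
  refine ⟨G, inferInstance, htor, ⟨S, hSgen⟩, ?_, ?_, ?_⟩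
  · intro S' hS'
    rw [l2Betti_indep S' S hS' hSgen, l2Betti_eq]
    exact ⟨by linarith, hup⟩
  · -- amenable subgroups
    intro A hA
    by_contra hfin
    have hAinf : Infinite A := not_finite_iff_infinite.1 hfin
    have hFol : Pool.Agent.W336.CS.Fol A := Pool.Agent.W361.CS.fol A hA
    have hcomm : ∃ a ∈ A, ∃ b ∈ A, a * b ≠ b * a := by
      by_contra hcon
      push Not at hcon
      obtain ⟨a, ha⟩ := exists_ne (1 : A)
      have ha1 : (a : G) ≠ 1 := fun h => ha (Subtype.ext h)
      have h1 : (A : Set G) ⊆ Subgroup.zpowers (a : G) :=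
        fun g hg => hcen a g ha1 (hcon a a.2 g hg)
      have h2 : (Subgroup.zpowers (a : G) : Set G).Finite := finite_zpowers.2 (htor a)
      exact hfin (h2.subset h1).to_subtype
    obtain ⟨a, ha, b, hb, hab⟩ := hcomm
    obtain ⟨r, F, hF, hcard⟩ := hgrow a b hab
    have hle : Subgroup.closure ({a, b} : Set G) ≤ A := by
      rw [Subgroup.closure_le]
      rintro x (rfl | hx)
      · exact ha
      · rw [Set.mem_singleton_iff] at hx
        rw [hx]
        exact hb
    have hrdr := hrd r
    have hK : 0 ≤ E0 * (1 + (r : ℝ)) ^ 7 := by positivity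
    have hFne : F.Nonempty := by
      rw [← Finset.card_pos]
      have : (0 : ℝ) < F.card := lt_of_le_of_lt hK hcard
      exact_mod_cast this
    have h1 := Am.amen_card A hFol (FreeBase.freeHyp.qlen Ri) r _ hrdr F hFne
      (fun x hx => ⟨hle (hF x hx).1, (hF x hx).2⟩)
    linarith
  · -- no finite index subgroups
    intro G₁ hG₁
    have hK : G₁.normalCore.FiniteIndex := inferInstance
    have hKn : G₁.normalCore.Normal := inferInstance
    set k := G₁.normalCore.index with hk
    have hk0 : k ≠ 0 := hK.index_ne_zero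
    have key : ∀ X : G, k < orderOf X → X ∈ G₁.normalCore := by
      intro X hX
      by_contra hX1
      have hXne : X ≠ 1 := by
        rintro rfl
        exact hX1 (one_mem _)
      have hp := hprime X hXne
      have h1 : orderOf ((X : G) : G ⧸ G₁.normalCore) ∣ orderOf X :=
        orderOf_map_dvd (QuotientGroup.mk' _) X
      have h2 : orderOf ((X : G) : G ⧸ G₁.normalCore) ∣ k := by
        rw [hk, Subgroup.index]
        exact orderOf_dvd_natCard _
      rcases (Nat.dvd_prime hp).1 h1 with h3 | h3
      · rw [orderOf_eq_one_iff, QuotientGroup.eq_one_iff] at h3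
        exact hX1 h3
      · rw [h3] at h2
        have := Nat.le_of_dvd (Nat.pos_of_ne_zero hk0) h2
        omega
    have h1 : G₁.normalCore = ⊤ := by
      rw [eq_top_iff, ← hSgen, Subgroup.closure_le]
      intro x hx
      obtain ⟨i, -, rfl⟩ := Finset.mem_image.1 (Finset.mem_coe.1 hx)
      obtain ⟨X, Y, hXY, hX, hY⟩ := hfac k i
      have : v i = X * Y := hXY
      rw [this]
      exact mul_mem (key X hX) (key Y hY)
    rw [eq_top_iff, ← h1]
    exact Subgroup.normalCore_le G₁

end Pool.Agent.TH65.B
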