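import Pool.Agent.TH65.B.Lev
import Pool.Agent.TH75.B_fin_comm
import Pool.Agent.TH75.B_tors_fin
import Pool.Agent.TH75.B_inf_mul
import Pool.Agent.TH558.B_exists_prime
import Pool.Agent.TH699.B_grow
import Pool.Agent.TH64.FreeBase

/-!
# One stage of the tower of quotients of the free group of rank two (helper65)
-/

set_option autoImplicit false

namespace Pool.Agent.TH65.B

open Pool.Agent.TH64 Pool.Agent.TH63.RD
open Pool.Agent.TH75.BLH (fin_comm)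
open Pool.Agent.TH75.BLJ (tors_fin)
open Pool.Agent.TH75.BLM (inf_mul)
open Pool.Agent.TH558.BL (exists_prime)
open Pool.Agent.TH699 (grow)

/-- noncommuting elements generate a subgroup which is not elementary -/
theorem noncomm_data {G : Type} [Group G] {H : Hyp G} {E : ℝ} {Ps : Finset ℕ} (hL : LevP H E Ps)
    (hPs : ∀ p ∈ Ps, p.Prime ∧ Odd p) (hsep : ∀ p ∈ Ps, ∀ q ∈ Ps, ¬ p ∣ q - 1)
    (L : Subgroup G) (a b : G) (ha : a ∈ L) (hb : b ∈ L) (hab : a * b ≠ b * a) :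
    ∃ x : G, Nonempty (Ax H x) ∧ ¬ IsOfFinOrder x ∧ (∃ k : ℤ, k ≠ 0 ∧ x ^ k ∈ L) ∧
      ∃ h ∈ L, h ∉ Subgroup.zpowers x := by
  by_cases hall : ∀ g ∈ L, IsOfFinOrder g
  · exfalso
    have hfin : Finite L := by
      refine tors_fin H ?_ L hall
      intro a ha ha'
      have h1 : (Subgroup.zpowers a : Set G).Finite := finite_zpowers.2 ha'
      refine h1.subset ?_
      intro g hg
      exact hL.cen a g ha ha' hg
    apply hab
    have h2 := fin_comm (G := L) ?_ ?_ ⟨a, ha⟩ ⟨b, hb⟩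
    · exact congrArg Subtype.val h2
    · intro c hc
      have hc1 : (c : G) ≠ 1 := fun h => hc (Subtype.ext h)
      have hc2 := hall c c.2
      refine ⟨?_, ?_⟩
      · rw [← Subgroup.orderOf_coe]
        exact (hPs _ (hL.tor c hc1 hc2)).1
      · intro g hcg
        obtain ⟨k, hk⟩ := hL.cen c g hc1 hc2 (congrArg Subtype.val hcg)
        refine ⟨k, Subtype.ext ?_⟩
        have hk' : (c : G) ^ k = g := hk
        show ((c ^ k : L) : G) = g
        rw [Subgroup.coe_zpow]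
        exact hk'
    · intro c e hc he
      have hc1 : (c : G) ≠ 1 := fun h => hc (Subtype.ext h)
      have he1 : (e : G) ≠ 1 := fun h => he (Subtype.ext h)
      rw [← Subgroup.orderOf_coe, ← Subgroup.orderOf_coe]
      exact hsep _ (hL.tor c hc1 (hall c c.2)) _ (hL.tor e he1 (hall e e.2))
  · push Not at hall
    obtain ⟨γ, hγL, hγ⟩ := hall
    obtain ⟨x, ⟨j, hj, hj0⟩, hx, hA⟩ := exists_root hL hPs γ hγ
    refine ⟨x, hA, hx, ⟨j, hj0, by rw [hj]; exact hγL⟩, ?_⟩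
    by_contra hcon
    push Not at hcon
    obtain ⟨i, hi⟩ := hcon a ha
    obtain ⟨k, hk⟩ := hcon b hb
    have hi' : x ^ i = a := hi
    have hk' : x ^ k = b := hk
    apply hab
    rw [← hi', ← hk', ← zpow_add, ← zpow_add, add_comm]

abbrev F2 := FreeGroup (Fin 2)

/-- the quotient of the free group by `R` is hyperbolic with the properties `LevP` -/
structure St (E : ℝ) (Ps : Finset ℕ) (R : Subgroup F2) : Prop where
  ex : ∃ (Q : Type) (_ : Group Q) (ψ : F2 →* Q) (H : Hyp Q),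
    Function.Surjective ψ ∧ (∀ g, ψ g = 1 ↔ g ∈ R) ∧ (∀ g, H.len (ψ g) ≤ g.norm) ∧
    (∀ q, ∃ g : F2, ψ g = q ∧ g.norm ≤ H.len q) ∧ LevP H E Ps

/-- the commutator of the two generators -/
def c0 : F2 := FreeGroup.of 0 * FreeGroup.of 1 * (FreeGroup.of 0)⁻¹ * (FreeGroup.of 1)⁻¹

/-- the data at one stage -/
structure Dt (E : ℝ) where
  R : Subgroup F2
  Ps : Finset ℕ
  Z : Finset F2
  st : St E Ps R
  pr : ∀ p ∈ Ps, p.Prime ∧ Odd p
  sep : ∀ p ∈ Ps, ∀ q ∈ Ps, ¬ p ∣ q - 1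
  z : ∀ z ∈ Z, z ∉ R
  cm : c0 ∈ Z

theorem comm_ne {Q : Type} [Group Q] (ψ : F2 →* Q) (R : Subgroup F2) (hker : ∀ g, ψ g = 1 ↔ g ∈ R)
    (a b : F2) (hab : a * b * a⁻¹ * b⁻¹ ∉ R) : ψ a * ψ b ≠ ψ b * ψ a := by
  intro h
  apply hab
  rw [← hker, map_mul, map_mul, map_mul, map_inv, map_inv, h]
  group

/-- protecting many elements in a ball -/
theorem task_pair {E : ℝ} (D : Dt E) (K : ℝ) (d : ℕ) (a b : F2) :
    ∃ Y : Finset F2, (∀ y ∈ Y, y ∉ D.R) ∧ (a * b * a⁻¹ * b⁻¹ ∉ D.R →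
      ∃ (r : ℕ) (F : Finset F2), (∀ g ∈ F, g.norm ≤ r ∧
        ∃ g2 ∈ Subgroup.closure ({a, b} : Set F2), g⁻¹ * g2 ∈ D.R) ∧
        K * (1 + r) ^ d < F.card ∧ ∀ g ∈ F, ∀ h ∈ F, g ≠ h → g⁻¹ * h ∈ Y) := by
  classical
  by_cases hab : a * b * a⁻¹ * b⁻¹ ∈ D.R
  · exact ⟨∅, fun y hy => absurd hy (Finset.notMem_empty y), fun h => absurd hab h⟩
  obtain ⟨Q, _, ψ, H, hψ, hker, hlen, hlift, hL⟩ := D.st.ex
  have hne := comm_ne ψ D.R hker a b hab
  set L : Subgroup Q := Subgroup.closure ({ψ a, ψ b} : Set Q) with hLdef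
  have haL : ψ a ∈ L := Subgroup.subset_closure (by simp)
  have hbL : ψ b ∈ L := Subgroup.subset_closure (by simp)
  obtain ⟨x, ⟨A⟩, hx, ⟨k, hk, hkL⟩, h, hhL, hhx⟩ := noncomm_data hL D.pr D.sep L _ _ haL hbL hne
  obtain ⟨r, F1, hF1, hcard⟩ := grow A L k hk hkL h hhL hhx K d
  choose s hs hsl using hlift
  have hinj : Set.InjOn s F1 := by
    intro p _ q _ hpq
    rw [← hs p, ← hs q, hpq]
  refine ⟨((F1.image s) ×ˢ (F1.image s)).image (fun p => p.1⁻¹ * p.2) |>.filter (fun y => y ∉ D.R),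
    fun y hy => (Finset.mem_filter.1 hy).2, fun _ => ⟨r, F1.image s, ?_, ?_, ?_⟩⟩
  · intro g hg
    obtain ⟨q, hq, rfl⟩ := Finset.mem_image.1 hg
    refine ⟨(hsl q).trans (hF1 q hq).2, ?_⟩
    have h1 : q ∈ L := (hF1 q hq).1
    have h2 : L = (Subgroup.closure ({a, b} : Set F2)).map ψ := by
      rw [MonoidHom.map_closure, Set.image_pair]
    rw [h2] at h1
    obtain ⟨g2, hg2, hg2q⟩ := h1
    refine ⟨g2, hg2, ?_⟩
    rw [← hker, map_mul, map_inv, hs, hg2q, inv_mul_cancel]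
  · rw [Finset.card_image_of_injOn hinj]
    exact hcard
  · intro g hg g' hg' hgg
    rw [Finset.mem_filter]
    refine ⟨Finset.mem_image.2 ⟨(g, g'), Finset.mem_product.2 ⟨hg, hg'⟩, rfl⟩, ?_⟩
    intro hmem
    obtain ⟨q, hq, rfl⟩ := Finset.mem_image.1 hg
    obtain ⟨q', hq', rfl⟩ := Finset.mem_image.1 hg'
    rw [← hker, map_mul, map_inv, hs, hs, inv_mul_eq_one] at hmem
    exact hgg (by rw [hmem])

/-- writing an element as a product of two elements of infinite order -/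
theorem task_fac {E : ℝ} (D : Dt E) (s : F2) : ∃ X Y : F2, s = X * Y ∧
    ∀ q : ℕ, 1 ≤ q → X ^ q ∉ D.R ∧ Y ^ q ∉ D.R := by
  obtain ⟨Q, _, ψ, H, hψ, hker, hlen, hlift, hL⟩ := D.st.ex
  have hne := comm_ne ψ D.R hker _ _ (D.z _ D.cm)
  obtain ⟨x, ⟨A⟩, hx, -⟩ := noncomm_data hL D.pr D.sep ⊤ _ _ (Subgroup.mem_top _)
    (Subgroup.mem_top _) hne
  obtain ⟨X, hX⟩ := hψ x
  obtain ⟨n0, hn0⟩ := inf_mul A (ψ s)
  refine ⟨s * X ^ (n0 + 1), (X ^ (n0 + 1))⁻¹, by group, ?_⟩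
  have h1 : ¬ IsOfFinOrder (ψ (s * X ^ (n0 + 1))) := by
    rw [map_mul, map_pow, hX]
    exact hn0 _ (by omega)
  have h2 : ¬ IsOfFinOrder (ψ (X ^ (n0 + 1))⁻¹) := by
    rw [map_inv, map_pow, hX, isOfFinOrder_inv_iff, isOfFinOrder_pow]
    push Not
    exact ⟨hx, by omega⟩
  intro q hq
  constructor
  · intro h
    apply h1
    rw [isOfFinOrder_iff_pow_eq_one]
    exact ⟨q, hq, by rw [← map_pow, hker]; exact h⟩
  · intro h
    apply h2
    rw [isOfFinOrder_iff_pow_eq_one]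
    exact ⟨q, hq, by rw [← map_pow, hker]; exact h⟩

/-- killing a power of an element -/
theorem step_kill {E E' : ℝ} (hE : 1 ≤ E) (hEE : E < E') (D : Dt E) (Z : Finset F2)
    (hDZ : D.Z ⊆ Z) (hZ : ∀ z ∈ Z, z ∉ D.R) (γ : F2) (B : ℕ) :
    ∃ D' : Dt E', D.R ≤ D'.R ∧ Z ⊆ D'.Z ∧ (∃ m : ℕ, 1 ≤ m ∧ γ ^ m ∈ D'.R) ∧
      (D'.R = D.R ∨ ∃ (X : F2) (N : ℕ), N.Prime ∧ B ≤ N ∧ X ∈ D'.Z ∧ X ^ N ∈ D'.R ∧
        ∀ K : Subgroup F2, K.Normal → D.R ≤ K → X ^ N ∈ K → D'.R ≤ K) := by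
  classical
  obtain ⟨Q, _, ψ, H, hψ, hker, hlen, hlift, hL⟩ := D.st.ex
  by_cases hfin : IsOfFinOrder (ψ γ)
  · obtain ⟨m, hm, hm1⟩ := isOfFinOrder_iff_pow_eq_one.1 hfin
    rw [← map_pow, hker] at hm1
    exact ⟨{ R := D.R, Ps := D.Ps, Z := Z,
             st := ⟨Q, _, ψ, H, hψ, hker, hlen, hlift, hL.mono hEE.le⟩,
             pr := D.pr, sep := D.sep, z := hZ, cm := hDZ D.cm }, le_rfl, fun z hz => hz,
      ⟨m, hm, hm1⟩, Or.inl rfl⟩
  obtain ⟨x, ⟨j, hj, -⟩, hx, ⟨A⟩⟩ := exists_root hL D.pr (ψ γ) hfin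
  obtain ⟨X, hX⟩ := hψ x
  obtain ⟨N0, hN0⟩ := stepP hE hEE D.pr hL A (ψ '' (Z : Set F2)) (Z.finite_toSet.image _)
  obtain ⟨N, hNp, hNB, hNodd, hNs⟩ := exists_prime D.Ps D.pr (N0 + B + 2)
  obtain ⟨⟨H', hH', hL'⟩, hinj, hord⟩ := hN0 N (by omega) hNp
  set M := Subgroup.normalClosure ({x ^ N} : Set Q) with hM
  have hMn : M.Normal := Subgroup.normalClosure_normal
  have hxN : x ^ N ∈ M := Subgroup.subset_normalClosure rfl
  have hXn : X ∉ M.comap ψ := by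
    intro h
    have h1 : x ^ (1 : ℤ) ∈ M := by
      rw [zpow_one, ← hX]
      exact h
    have h2 := hord 1 h1
    have h3 := Int.eq_one_of_dvd_one (by positivity) h2
    have h4 := hNp.one_lt
    omega
  refine ⟨{ R := M.comap ψ, Ps := insert N D.Ps, Z := insert X Z,
            st := ⟨Q ⧸ M, inferInstance, (QuotientGroup.mk' M).comp ψ, H',
              (QuotientGroup.mk'_surjective M).comp hψ, ?_, ?_, ?_, hL'⟩,
            pr := ?_, sep := ?_, z := ?_, cm := Finset.mem_insert_of_mem (hDZ D.cm) },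
          ?_, ?_, ?_, Or.inr ⟨X, N, hNp, by omega, Finset.mem_insert_self _ _, ?_, ?_⟩⟩
  · intro g
    exact QuotientGroup.eq_one_iff _
  · intro g
    rw [hH']
    exact (H.qlen_le M (ψ g)).trans (hlen g)
  · intro q
    obtain ⟨y, hy, hyl⟩ := H.qlen_rep M q
    obtain ⟨g, hg, hgl⟩ := hlift y
    refine ⟨g, ?_, ?_⟩
    · rw [← hy, ← hg]
      rfl
    · rw [hH', ← hyl]
      exact hgl
  · intro p hp
    rcases Finset.mem_insert.1 hp with rfl | hp
    · exact ⟨hNp, hNodd⟩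
    · exact D.pr p hp
  · intro p hp q hq
    have hlt : ∀ p q : ℕ, p.Prime → q.Prime → q ≤ p → ¬ p ∣ q - 1 := by
      intro p q hp hq hqp hd
      have h1 := Nat.le_of_dvd (by have := hq.two_le; omega) hd
      have h2 := hq.two_le
      omega
    rcases Finset.mem_insert.1 hp with hp1 | hp1
    · rcases Finset.mem_insert.1 hq with hq1 | hq1
      · rw [hp1, hq1]
        exact hlt _ _ hNp hNp le_rfl
      · rw [hp1]
        exact hlt _ _ hNp (D.pr q hq1).1 (hNs q hq1).1.le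
    · rcases Finset.mem_insert.1 hq with hq1 | hq1
      · rw [hq1]
        exact (hNs p hp1).2
      · exact D.sep p hp1 q hq1
  · intro z hz
    rcases Finset.mem_insert.1 hz with rfl | hz
    · exact hXn
    · intro hzM
      have h1 := hinj (ψ z) ⟨z, hz, rfl⟩ hzM
      exact hZ z hz ((hker z).1 h1)
  · intro r hr
    show ψ r ∈ M
    rw [(hker r).2 hr]
    exact M.one_mem
  · intro z hz
    exact Finset.mem_insert_of_mem hz
  · refine ⟨N, hNp.one_lt.le, ?_⟩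
    show ψ (γ ^ N) ∈ M
    rw [map_pow, ← hj, ← zpow_natCast, ← zpow_mul, mul_comm, zpow_mul, zpow_natCast]
    exact M.zpow_mem hxN j
  · show ψ (X ^ N) ∈ M
    rw [map_pow, hX]
    exact hxN
  · intro K hK hRK hXK g hg
    have hg' : ψ g ∈ M := hg
    have hnK : (K.map ψ).Normal := Subgroup.Normal.map hK ψ hψ
    have hMK : M ≤ K.map ψ := by
      apply Subgroup.normalClosure_le_normal
      rintro _ rfl
      exact ⟨X ^ N, hXK, by rw [map_pow, hX]⟩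
    obtain ⟨y, hy, hyg⟩ := hMK hg'
    have h1 : g * y⁻¹ ∈ K := by
      apply hRK
      rw [← hker, map_mul, map_inv, hyg, mul_inv_cancel]
    have h2 := K.mul_mem h1 hy
    rwa [inv_mul_cancel_right] at h2

end Pool.Agent.TH65.B
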